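import Mathlib
import Pool.Agent.U367.DR.Stm

/-!
# The kernel of Fontaine's map is generated by `p - [p♭]`
-/

set_option autoImplicit false

namespace Pool.Agent.U491.DR

open Pool.Agent.W292.FM WittVector Pool.Agent.U367.DR

variable {p : ℕ} [hp : Fact p.Prime]

/-- the generator `p - [p♭]` -/
noncomputable def xi (p : ℕ) [Fact p.Prime] : AI p :=
  (p : AI p) - WittVector.teichmuller p (pflat p)

theorem theta_xi : fontaineTheta 𝓞_ℂ_[p] p (xi p) = 0 := by
  rw [xi, map_sub, map_natCast, fontaineTheta_teichmuller, untilt_pflat, sub_self]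

/-- one step of the division -/
theorem step (x : AI p) (hx : fontaineTheta 𝓞_ℂ_[p] p x = 0) :
    ∃ a x1 : AI p, x = xi p * a + (p : AI p) * x1 ∧ fontaineTheta 𝓞_ℂ_[p] p x1 = 0 := by
  have h0 : PreTilt.coeff 0 (x.coeff 0) = 0 := by
    rw [← mk_fontaineTheta, hx, map_zero]
  obtain ⟨y0, hy0⟩ := pflat_dvd h0
  have h1 : (x - xi p * (- WittVector.teichmuller p y0)).coeff 0 = 0 := by
    have e : ∀ z : AI p, z.coeff 0 = WittVector.constantCoeff z := fun z => rfl
    rw [e, map_sub, map_mul, map_neg, xi, map_sub, map_natCast, ← e x, ← e, ← e,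
      WittVector.teichmuller_coeff_zero, WittVector.teichmuller_coeff_zero, hy0,
      CharP.cast_eq_zero]
    ring
  have h2 := (WittVector.mem_span_p_iff_coeff_zero_eq_zero _).2 h1
  obtain ⟨x1, hx1⟩ := Ideal.mem_span_singleton.1 h2
  refine ⟨- WittVector.teichmuller p y0, x1, ?_, ?_⟩
  · rw [← hx1]
    ring
  · have h3 := congrArg (fontaineTheta 𝓞_ℂ_[p] p) hx1
    rw [map_sub, map_mul, theta_xi, hx, zero_mul, sub_zero, map_mul, map_natCast] at h3
    rcases mul_eq_zero.1 h3.symm with h4 | h4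
    · exfalso
      exact hp.out.ne_zero (Nat.cast_eq_zero.1 h4)
    · exact h4

/-- the elements of the kernel -/
abbrev K (p : ℕ) [Fact p.Prime] : Type := {x : AI p // fontaineTheta 𝓞_ℂ_[p] p x = 0}

theorem exists_seq (x : AI p) (hx : fontaineTheta 𝓞_ℂ_[p] p x = 0) :
    ∃ a : ℕ → AI p, ∀ n, ∃ r : AI p,
      x = xi p * (∑ i ∈ Finset.range n, (p : AI p) ^ i * a i) + (p : AI p) ^ n * r := by
  have hs : ∀ k : K p, ∃ q : AI p × K p, k.1 = xi p * q.1 + (p : AI p) * q.2.1 := by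
    intro k
    obtain ⟨a, x1, h1, h2⟩ := step k.1 k.2
    exact ⟨(a, ⟨x1, h2⟩), h1⟩
  choose F hF using hs
  let X : ℕ → K p := fun n => Nat.rec ⟨x, hx⟩ (fun _ k => (F k).2) n
  have hX : ∀ n, X (n + 1) = (F (X n)).2 := fun n => rfl
  refine ⟨fun n => (F (X n)).1, fun n => ⟨(X n).1, ?_⟩⟩
  induction n with
  | zero => simp [X]
  | succ n ih =>
    rw [Finset.sum_range_succ, hX]
    have h := hF (X n)
    calc x = xi p * (∑ i ∈ Finset.range n, (p : AI p) ^ i * (F (X i)).1) +
          (p : AI p) ^ n * (X n).1 := ih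
      _ = xi p * (∑ i ∈ Finset.range n, (p : AI p) ^ i * (F (X i)).1) +
          (p : AI p) ^ n * (xi p * (F (X n)).1 + (p : AI p) * (F (X n)).2.1) := by rw [← h]
      _ = _ := by ring

theorem t_KER : S_KER := by
  intro p hp x hx
  obtain ⟨a, ha⟩ := exists_seq x hx
  have hc : IsAdicComplete (Ideal.span {(p : AI p)}) (AI p) := inferInstance
  let s : ℕ → AI p := fun n => ∑ i ∈ Finset.range n, (p : AI p) ^ i * a i
  have hmem : ∀ (n : ℕ) (z w : AI p),
      z ≡ w [SMOD ((Ideal.span {(p : AI p)}) ^ n • ⊤ : Submodule (AI p) (AI p))] ↔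
        (p : AI p) ^ n ∣ z - w := by
    intro n z w
    rw [SModEq.sub_mem, smul_eq_mul, Ideal.mul_top, Ideal.span_singleton_pow,
      Ideal.mem_span_singleton]
  obtain ⟨L, hL⟩ := hc.prec' s (by
    intro m n hmn
    rw [hmem]
    have h1 : s n = s m + ∑ i ∈ Finset.Ico m n, (p : AI p) ^ i * a i :=
      (Finset.sum_range_add_sum_Ico (fun i => (p : AI p) ^ i * a i) hmn).symm
    rw [h1, sub_add_cancel_left]
    refine (dvd_neg).2 (Finset.dvd_sum fun i hi => ?_)
    exact Dvd.dvd.mul_right (pow_dvd_pow _ (Finset.mem_Ico.1 hi).1) _)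
  refine ⟨L, ?_⟩
  have h0 : x - xi p * L = 0 := by
    refine hc.haus' _ fun n => ?_
    rw [hmem, sub_zero]
    obtain ⟨r, hr⟩ := ha n
    have h1 := (hmem n _ _).1 (hL n)
    have h2 : x - xi p * L = xi p * (s n - L) + (p : AI p) ^ n * r := by
      rw [show s n = ∑ i ∈ Finset.range n, (p : AI p) ^ i * a i from rfl]
      linear_combination hr
    rw [h2]
    exact dvd_add (Dvd.dvd.mul_left h1 _) (dvd_mul_right _ _)
  exact sub_eq_zero.1 h0

end Pool.Agent.U491.DR
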